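import Pool.Agent.H9.K2.Stmts

/-!
# Fans are exponentially nonatomic
-/

set_option autoImplicit false

namespace Pool.KA

open Finset Real
open Pool.Agent.H49.Ent Pool.Agent.H32.Dense Pool.STK

section Aux

variable {Ω S T U : Type} [Fintype Ω]

lemma sum_law_pair_le {p : Ω → ℝ} (hp : ∀ ω, 0 ≤ p ω) (Y : Ω → S) (W : Ω → U) (w : U)
    (F : Finset S) : ∑ x ∈ F, law p (fun ω => (Y ω, W ω)) (x, w) ≤ law p W w := by
  classical
  unfold law
  rw [Finset.sum_comm]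
  refine Finset.sum_le_sum fun ω _ => ?_
  by_cases h : W ω = w
  · rw [if_pos h]
    refine (Finset.sum_congr rfl (g := fun x => if Y ω = x then p ω else 0)
      (fun x _ => ?_)).trans_le ?_
    · by_cases h1 : Y ω = x
      · rw [if_pos h1]
        exact if_pos (by simp only; rw [h1, h])
      · rw [if_neg h1]
        exact if_neg (fun h2 => h1 (Prod.mk.inj h2).1)
    · rw [Finset.sum_ite_eq]
      split_ifs
      · exact le_rfl
      · exact hp ω
  · rw [if_neg h]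
    refine (Finset.sum_eq_zero fun x _ => ?_).le
    rw [if_neg (fun h2 => h (Prod.mk.inj h2).2)]

lemma cpr_le_one {p : Ω → ℝ} (hp : ∀ ω, 0 ≤ p ω) (Y : Ω → S) (W : Ω → U) (ω : Ω) :
    cpr p Y W ω ≤ 1 := by
  unfold cpr
  refine div_le_one_of_le₀ ?_ (law_nonneg hp _ _)
  have h := sum_law_pair_le hp Y W (W ω) {Y ω}
  rwa [Finset.sum_singleton] at h

lemma cpr_mono {p : Ω → ℝ} (hp : ∀ ω, 0 ≤ p ω) (Y : Ω → S) (Y' : Ω → T) (W : Ω → U) (ω : Ω)
    (hY : ∀ ω', Y ω' = Y ω → Y' ω' = Y' ω) : cpr p Y W ω ≤ cpr p Y' W ω := by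
  classical
  unfold cpr
  refine div_le_div_of_nonneg_right ?_ (law_nonneg hp _ _)
  unfold law
  refine Finset.sum_le_sum fun ω' _ => ?_
  by_cases h : (Y ω', W ω') = (Y ω, W ω)
  · rw [if_pos h]
    have h1 := (Prod.mk.inj h).1
    have h2 := (Prod.mk.inj h).2
    have h3 : (Y' ω', W ω') = (Y' ω, W ω) := by rw [hY ω' h1, h2]
    exact (if_pos h3).symm.le
  · rw [if_neg h]
    split_ifs
    · exact hp ω'
    · exact le_rfl

/-- Entropy under a restricted law. -/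
lemma CH_res_le {p : Ω → ℝ} (hp : ∀ ω, 0 ≤ p ω) (Y : Ω → S) (W : Ω → U) (A : Ω → Prop)
    (hA : law p A True ≠ 0) (s : ℝ) (h : ∀ ω, A ω → 0 < p ω → Real.exp (-s) ≤ cpr p Y W ω) :
    CH (cond p A True) Y W ≤ s := by
  have hc : ∀ ω, 0 ≤ cond p A True ω := cond_nonneg hp A True
  have h1 : ∑ ω, cond p A True ω = 1 := sum_cond p A hA
  have hq0 : ∀ (w : U) (x : S), 0 ≤ law p (fun ω => (Y ω, W ω)) (x, w) / law p W w := fun w x =>
    div_nonneg (law_nonneg hp _ _) (law_nonneg hp _ _)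
  have hpos : ∀ ω, 0 < cond p A True ω → 0 < p ω ∧ A ω := by
    intro ω hω
    obtain ⟨h2, h3⟩ := (cond_pos_iff hp A True ω).mp hω
    exact ⟨h2, of_eq_true h3⟩
  refine (CH_le_cross hc h1 Y W
    (fun w x => law p (fun ω => (Y ω, W ω)) (x, w) / law p W w) ?_ hq0 ?_).trans ?_
  · intro ω hω
    exact div_pos (law_pos hp (fun ω => (Y ω, W ω)) (hpos ω hω).1) (law_pos hp W (hpos ω hω).1)
  · intro ω hω F
    rw [← Finset.sum_div]
    exact div_le_one_of_le₀ (sum_law_pair_le hp Y W (W ω) F) (law_nonneg hp _ _)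
  · unfold Ex
    calc ∑ ω, cond p A True ω *
          -Real.log (law p (fun ω => (Y ω, W ω)) (Y ω, W ω) / law p W (W ω))
        ≤ ∑ ω, cond p A True ω * s := by
          refine Finset.sum_le_sum fun ω _ => ?_
          rcases (hc ω).eq_or_lt with h0 | h0
          · rw [← h0, zero_mul, zero_mul]
          · refine mul_le_mul_of_nonneg_left ?_ (hc ω)
            have h2 := h ω (hpos ω h0).2 (hpos ω h0).1
            have h3 := Real.log_le_log (Real.exp_pos _) h2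
            rw [Real.log_exp] at h3
            unfold cpr at h3
            linarith only [h3]
      _ = s := by rw [← Finset.sum_mul, h1, one_mul]

end Aux

/-- The functional is at most `(R + η)(J - q)` for tubes. -/
lemma tub_Ga_le (hT : TUBStmt) {m : ℕ} {a R : ℝ} (hU : UBa m a R) {η κ : ℝ} (hη : 0 < η)
    (hκ : 0 < κ) : ∃ θ > 0, ∃ J₀ : ℕ, ∀ J ≥ J₀, ∀ F : Fam m J, F.Tm (θ * J) →
      ∀ (q : ℕ) (hq : q ≤ J), κ * J ≤ (J : ℝ) - q → (F.tub q hq).Ga a ≤ (R + η) * ((J : ℝ) - q) := by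
  obtain ⟨θ₀, hθ₀, J₀, h0⟩ := hU η hη
  obtain ⟨C, hC, hT⟩ := hT m
  refine ⟨θ₀ * κ, mul_pos hθ₀ hκ, ⌈(J₀ : ℝ) / κ⌉₊, ?_⟩
  intro J hJ F hF q hq hκq
  have h1 : (J₀ : ℝ) ≤ κ * J := by
    have h2 : (J₀ : ℝ) / κ ≤ J := (Nat.le_ceil _).trans (by exact_mod_cast hJ)
    rw [div_le_iff₀ hκ] at h2
    linarith only [h2]
  have h3 : ((J - q : ℕ) : ℝ) = (J : ℝ) - q := Nat.cast_sub hq
  have h4 : J₀ ≤ J - q := by
    have : (J₀ : ℝ) ≤ ((J - q : ℕ) : ℝ) := by rw [h3]; linarith only [hκq, h1]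
    exact_mod_cast this
  have h5 := (hT J F q hq _ hF).1
  have h6 : (F.tub q hq).Tm (θ₀ * ((J - q : ℕ) : ℝ)) := by
    unfold Fam.Tm at h5 ⊢
    have h7 : θ₀ * κ * J ≤ θ₀ * ((J - q : ℕ) : ℝ) := by
      rw [h3, mul_assoc]
      exact mul_le_mul_of_nonneg_left hκq hθ₀.le
    linarith only [hq, h5, h7]
  have h8 := h0 (J - q) h4 (F.tub q hq) h6
  rwa [h3] at h8

lemma fl_coarse {m : ℕ} {x y : Fin m → ℝ} {i j : ℕ} (h : i ≤ j) (e : fl j x = fl j y) :
    fl i x = fl i y := by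
  obtain ⟨k, rfl⟩ := Nat.exists_eq_add_of_le h
  funext a
  have h1 := congrFun e a
  unfold fl rd at h1 ⊢
  simp only at h1 ⊢
  have h2 : ∀ z : Fin m → ℝ, ⌊(2 : ℝ) ^ i * z a⌋ = ⌊(2 : ℝ) ^ (i + k) * z a⌋ / 2 ^ k := by
    intro z
    have h3 : (2 : ℝ) ^ i * z a = (2 : ℝ) ^ (i + k) * z a / ((2 ^ k : ℕ) : ℝ) := by
      push_cast
      rw [pow_add]
      field_simp
    rw [h3, Int.floor_div_natCast]
    push_cast
    rfl
  rw [h2, h2, h1]

open Classical in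
/-- (P6) Pointwise form of (P2): fans are exponentially nonatomic at all scales `q ≥ x J`, with a
real number `x > 0`. -/
def AP6RStmt : Prop :=
  ∀ (m : ℕ) (a R : ℝ), 1 ≤ a → 0 < R → UBa m a R → ∀ x : ℝ, 0 < x → ∀ ε : ℝ, 0 < ε →
    ∀ π₀ : ℝ, 0 < π₀ →
    ∃ η₁ > 0, ∃ θ₁ > 0, ∃ J₁ : ℕ, ∀ J ≥ J₁, ∀ F : Fam m J, F.NMa a R η₁ θ₁ →
      ∀ q : ℕ, q ≤ J → x * J ≤ q →
        (∑ ω, if Real.exp (-((R / a - ε) * q)) < cpr F.p (F.D q) (fun ω => (F.X J ω, F.W ω)) ω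
          then F.p ω else 0) ≤ π₀

theorem ap6r_thm (h5 : AP5Stmt) (h2 : AP2Stmt) (hT : TUBStmt) : AP6RStmt := by
  classical
  intro m a R ha hR hU x hx ε hε π₀ hπ₀
  have ha0 : 0 < a := lt_of_lt_of_le one_pos ha
  rcases le_or_gt (R / a) ε with hcase | hcase
  · -- trivial case
    refine ⟨1, one_pos, 1, one_pos, 0, fun J _ F _ q _ _ => ?_⟩
    refine le_trans (le_of_eq ?_) hπ₀.le
    refine Finset.sum_eq_zero fun ω _ => if_neg ?_
    rw [not_lt]
    refine (cpr_le_one F.isLaw.nonneg _ _ ω).trans ?_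
    rw [← Real.exp_zero]
    apply Real.exp_le_exp.mpr
    have : (R / a - ε) * q ≤ 0 := mul_nonpos_of_nonpos_of_nonneg (by linarith only [hcase]) (Nat.cast_nonneg q)
    linarith only [this]
  set ρ : ℝ := R / a with hρ
  have hρ0 : 0 < ρ := div_pos hR ha0
  obtain ⟨C, hC, h2⟩ := h2 m
  set κ : ℝ := min (1 / 4) (ε / (8 * ρ)) with hκ
  have hκ0 : 0 < κ := lt_min (by norm_num) (by positivity)
  have hκ1 : κ ≤ 1 / 4 := min_le_left _ _
  have hκ2 : 2 * κ * ρ ≤ ε / 4 := by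
    have h3 : κ ≤ ε / (8 * ρ) := min_le_right _ _
    rw [le_div_iff₀ (by positivity)] at h3
    linarith only [h3]
  set x' : ℝ := min x (1 / 2) with hx'
  have hx0 : 0 < x' := lt_min hx (by norm_num)
  set η : ℝ := a * ε * x' / 16 with hη
  have hη0 : 0 < η := by positivity
  obtain ⟨θ₀, hθ₀, J₀, h3⟩ := tub_Ga_le hT hU hη0 hκ0
  set θ : ℝ := min θ₀ (ε * x' / 16) with hθ
  have hθ0 : 0 < θ := lt_min hθ₀ (by positivity)
  obtain ⟨η₁, hη₁, θ₁, hθ₁, J₁, h6⟩ := h5 m a R ha hR hU π₀ hπ₀ η hη0 θ hθ0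
  refine ⟨η₁, hη₁, θ₁, hθ₁, max (max J₀ J₁) (max ⌈1 / κ⌉₊ ⌈16 * (C + 1) / (ε * x')⌉₊), ?_⟩
  intro J hJ F hF q hq hxq
  have hJ0 : J₀ ≤ J := (le_max_left _ _).trans ((le_max_left _ _).trans hJ)
  have hJ1 : J₁ ≤ J := (le_max_right _ _).trans ((le_max_left _ _).trans hJ)
  have hJ2 : 1 / κ ≤ J := (Nat.le_ceil _).trans
    (by exact_mod_cast (le_max_left _ _).trans ((le_max_right _ _).trans hJ))
  have hJ3 : 16 * (C + 1) / (ε * x') ≤ J := (Nat.le_ceil _).trans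
    (by exact_mod_cast (le_max_right _ _).trans ((le_max_right _ _).trans hJ))
  rw [div_le_iff₀ hκ0] at hJ2
  rw [div_le_iff₀ (by positivity)] at hJ3
  have hJpos : (0 : ℝ) ≤ J := Nat.cast_nonneg J
  -- the scale
  set n : ℕ := ⌈κ * J⌉₊ with hn
  have hn1 : κ * J ≤ n := Nat.le_ceil _
  have hn2 : (n : ℝ) ≤ κ * J + 1 := (Nat.ceil_lt_add_one (by positivity)).le
  have hnJ : n ≤ J := by
    have : (n : ℝ) ≤ J := by nlinarith only [hκ0, hκ1, hJ2, hn2]
    exact_mod_cast this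
  have hnc : ((J - n : ℕ) : ℝ) = (J : ℝ) - n := Nat.cast_sub hnJ
  set q' : ℕ := min q (J - n) with hq'
  have hq'q : q' ≤ q := min_le_left _ _
  have hq'J : q' ≤ J := hq'q.trans hq
  have hq'n : (q' : ℝ) ≤ (J : ℝ) - n := by
    rw [← hnc]
    exact_mod_cast min_le_right q (J - n)
  have hqJ : (q : ℝ) ≤ J := by exact_mod_cast hq
  have hq1 : x' * J ≤ q' := by
    rcases min_choice q (J - n) with h7 | h7
    · rw [hq', h7]
      exact (mul_le_mul_of_nonneg_right (min_le_left _ _) hJpos).trans hxq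
    · rw [hq', h7, hnc]
      have h8 : x' * J ≤ 1 / 2 * J := mul_le_mul_of_nonneg_right (min_le_right _ _) hJpos
      nlinarith only [hJ2, hn2, h8, hκ1]
  have hq2 : (ρ - ε) * q ≤ (ρ - ε / 2) * q' := by
    rcases min_choice q (J - n) with h7 | h7
    · rw [hq', h7]
      exact mul_le_mul_of_nonneg_right (by linarith only [hε]) (Nat.cast_nonneg q)
    · rw [hq', h7, hnc]
      have h8 : (ρ - ε) * q ≤ (ρ - ε) * J := mul_le_mul_of_nonneg_left hqJ (by linarith only [hcase])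
      have h9 : (ρ - ε / 2) * ((1 - 2 * κ) * J) ≤ (ρ - ε / 2) * ((J : ℝ) - n) := by
        refine mul_le_mul_of_nonneg_left ?_ (by linarith only [hε, hcase])
        nlinarith only [hJ2, hn2]
      have h10 : (ρ - ε) * J ≤ (ρ - ε / 2) * ((1 - 2 * κ) * J) := by
        have h11 : ρ - ε ≤ (ρ - ε / 2) * (1 - 2 * κ) := by nlinarith only [hε, hκ2, hκ0]
        calc (ρ - ε) * J ≤ ((ρ - ε / 2) * (1 - 2 * κ)) * J :=
              mul_le_mul_of_nonneg_right h11 hJpos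
          _ = _ := by ring
      linarith only [h8, h9, h10]
  -- the event
  set A : F.Ω → Prop := fun ω =>
    Real.exp (-((ρ - ε) * q)) < cpr F.p (F.D q) (fun ω => (F.X J ω, F.W ω)) ω with hA
  by_contra hcon
  rw [not_le] at hcon
  have hlaw : law F.p A True = ∑ ω, if A ω then F.p ω else 0 := by
    unfold law
    refine Finset.sum_congr rfl fun ω _ => ?_
    by_cases hω : A ω
    · rw [if_pos hω, if_pos (eq_true hω)]
    · rw [if_neg hω, if_neg (by rw [eq_false hω]; exact false_ne_true)]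
  have hπ : π₀ ≤ law F.p A True := by
    rw [hlaw]
    refine le_of_lt (lt_of_lt_of_eq hcon ?_)
    refine Finset.sum_congr rfl fun ω _ => ?_
    by_cases hω : A ω
    · rw [if_pos hω]
    · rw [if_neg hω]
  obtain ⟨hl, hTm, hGa⟩ := h6 J hJ1 F hF A hπ
  have hTm0 : (F.res A True hl).Tm (θ₀ * J) := by
    unfold Fam.Tm at hTm ⊢
    have h7 : θ * J ≤ θ₀ * J := mul_le_mul_of_nonneg_right (min_le_left _ _) hJpos
    linarith only [hl, hTm, h7]
  have h8 := h3 J hJ0 (F.res A True hl) hTm0 q' hq'J (by linarith only [hn1, hq'n])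
  have h9 := h2 J q' hq'J (F.res A True hl) a R η (θ * J) ha hη0.le hTm hGa h8
  have hp' : ∀ ω, 0 ≤ (F.res A True hl).p ω := hl.nonneg
  have h10 : 0 ≤ CH (F.res A True hl).p ((F.res A True hl).L q') (F.res A True hl).Z :=
    CH_nonneg hp' _ _
  have h11 : 0 ≤ CH (F.res A True hl).p ((F.res A True hl).L q')
      (fun ω => ((F.res A True hl).D J ω, (F.res A True hl).Z ω)) := CH_nonneg hp' _ _
  have h12 : CH (F.res A True hl).p ((F.res A True hl).D q')
      (fun ω => ((F.res A True hl).X J ω, (F.res A True hl).W ω)) ≤ (ρ - ε / 2) * q' := by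
    refine CH_res_le F.isLaw.nonneg (F.D q') (fun ω => (F.X J ω, F.W ω)) A
      (lt_of_lt_of_le hπ₀ hπ).ne' _ ?_
    intro ω hω _
    have h13 : cpr F.p (F.D q) (fun ω => (F.X J ω, F.W ω)) ω ≤
        cpr F.p (F.D q') (fun ω => (F.X J ω, F.W ω)) ω :=
      cpr_mono F.isLaw.nonneg _ _ _ ω fun ω' h14 => fl_coarse hq'q h14
    have h15 : Real.exp (-((ρ - ε / 2) * q')) ≤ Real.exp (-((ρ - ε) * q)) :=
      Real.exp_le_exp.mpr (by linarith only [hq2])
    exact h15.trans (hω.le.trans h13)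
  have h16 : a * ρ = R := by rw [hρ]; field_simp
  have h17 : a * ((ρ - ε / 2) * q') = R * q' - a * ε / 2 * q' := by rw [← h16]; ring
  have h18 : a * CH (F.res A True hl).p ((F.res A True hl).D q')
      (fun ω => ((F.res A True hl).X J ω, (F.res A True hl).W ω)) ≤
      a * ((ρ - ε / 2) * q') := mul_le_mul_of_nonneg_left h12 ha0.le
  have h19 : 0 ≤ (a - 1) * CH (F.res A True hl).p ((F.res A True hl).L q')
      (F.res A True hl).Z := mul_nonneg (by linarith only [ha]) h10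
  have h20 : a * ε / 2 * q' ≤ 2 * η * J + 2 * a * (θ * J + C) := by linarith only [hl, h9, h11, h17, h18, h19]
  have h21 : θ * J ≤ ε * x' / 16 * J := mul_le_mul_of_nonneg_right (min_le_right _ _) hJpos
  have h22 : a * ε / 2 * (x' * J) ≤ a * ε / 2 * q' := mul_le_mul_of_nonneg_left hq1 (by positivity)
  have h23 : 2 * a * (θ * J + C) ≤ 2 * a * (ε * x' / 16 * J + C) :=
    mul_le_mul_of_nonneg_left (by linarith only [h21]) (by positivity)
  have h24 : 2 * a * C ≤ 2 * a * (J * (ε * x') / 16) :=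
    mul_le_mul_of_nonneg_left (by linarith only [hκ0, hκ1, hJ3]) (by positivity)
  have h25 : 0 < a * (ε * x') * J := by
    have h26 : 0 < (J : ℝ) := by nlinarith only [hκ0, hκ1, hJ2, hn1, hnc]
    positivity
  rw [hη] at h20
  nlinarith only [h20, h22, h23, h24, h25]

theorem ap6_thm (h5 : AP5Stmt) (h2 : AP2Stmt) (hT : TUBStmt) : AP6Stmt := by
  intro m a R ha hR hU x hx ε hε π₀ hπ₀
  obtain ⟨η₁, hη₁, θ₁, hθ₁, J₁, h⟩ := ap6r_thm h5 h2 hT m a R ha hR hU (x : ℝ)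
    (by exact_mod_cast hx) ε hε π₀ hπ₀
  refine ⟨η₁, hη₁, θ₁, hθ₁, J₁, fun J hJ F hF q hq hxq => h J hJ F hF q hq ?_⟩
  exact_mod_cast hxq

end Pool.KA
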