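import Pool.Agent.H9.K2.Stmts2

/-!
# Regular functions; events in regular families
-/

set_option autoImplicit false

namespace Pool.KA

open Finset Real
open Pool.Agent.H49.Ent Pool.Agent.H32.Dense Pool.STK

section Aux

variable {Ω S T U V K : Type} [Fintype Ω]

lemma rg_pos {p : Ω → ℝ} (hp : IsLaw p) : ∃ ω, 0 < p ω := by
  by_contra hcon
  push Not at hcon
  have h0 : ∑ ω, p ω = 0 := Finset.sum_eq_zero fun ω _ => le_antisymm (hcon ω) (hp.nonneg ω)
  have h1 := hp.sum_one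
  linarith

lemma rg_le {p : Ω → ℝ} (hp : IsLaw p) {f : Ω → S} {h e : ℝ} (hf : Rg p f h e) :
    H p f ≤ h + e := by
  classical
  obtain ⟨ω₀, hω₀⟩ := rg_pos hp
  set F : Finset S := (Finset.univ.filter (fun ω => p ω ≠ 0)).image f with hF
  have hmem : ∀ ω, 0 < p ω → f ω ∈ F := fun ω hω =>
    Finset.mem_image_of_mem f (Finset.mem_filter.mpr ⟨Finset.mem_univ ω, hω.ne'⟩)
  have h1 := H_le_log_card hp.nonneg hp.sum_one f F hmem
  have h2 : 0 < (F.card : ℝ) := by exact_mod_cast Finset.card_pos.mpr ⟨_, hmem ω₀ hω₀⟩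
  have h3 : (F.card : ℝ) ≤ Real.exp (h + e) := hf.1
  have h5 := Real.log_le_log h2 h3
  rw [Real.log_exp] at h5
  linarith

lemma rg_ge {p : Ω → ℝ} (hp : IsLaw p) {f : Ω → S} {b : ℝ} (hf : ∀ s, law p f s ≤ Real.exp (-b)) :
    b ≤ H p f := by
  unfold H
  have h1 : ∑ ω, p ω * Real.log (law p f (f ω)) ≤ ∑ ω, p ω * (-b) := by
    refine Finset.sum_le_sum fun ω _ => ?_
    rcases (hp.nonneg ω).eq_or_lt with h0 | h0
    · rw [← h0, zero_mul, zero_mul]
    · refine mul_le_mul_of_nonneg_left ?_ h0.le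
      have h2 := Real.log_le_log (law_pos hp.nonneg f h0) (hf (f ω))
      rwa [Real.log_exp] at h2
  rw [← Finset.sum_mul, hp.sum_one, one_mul] at h1
  linarith

lemma cond_isLaw {p : Ω → ℝ} (hp : IsLaw p) (A : Ω → K) {k : K} (hk : 0 < law p A k) :
    IsLaw (cond p A k) := ⟨cond_nonneg hp.nonneg A k, sum_cond p A hk.ne'⟩

lemma cond_ne {p : Ω → ℝ} (A : Ω → K) {k : K} {ω : Ω} (h : cond p A k ω ≠ 0) : p ω ≠ 0 := by
  classical
  intro h0
  apply h
  unfold Pool.Agent.H49.Ent.cond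
  rw [h0, zero_div, ite_self]

lemma law_le_one' {p : Ω → ℝ} (hp : IsLaw p) (A : Ω → K) (k : K) : law p A k ≤ 1 :=
  hp.sum_one ▸ law_le_total hp.nonneg A k

lemma rg_cond_le {p : Ω → ℝ} (hp : IsLaw p) {f : Ω → S} {h e : ℝ} (hf : Rg p f h e)
    (A : Ω → K) {k : K} (hk : 0 < law p A k) : H (cond p A k) f ≤ h + e := by
  classical
  have hc := cond_isLaw hp A hk
  obtain ⟨ω₀, hω₀⟩ := rg_pos hc
  set F : Finset S := (Finset.univ.filter (fun ω => p ω ≠ 0)).image f with hF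
  have hmem : ∀ ω, 0 < cond p A k ω → f ω ∈ F := fun ω hω =>
    Finset.mem_image_of_mem f (Finset.mem_filter.mpr ⟨Finset.mem_univ ω, cond_ne A hω.ne'⟩)
  have h1 := H_le_log_card hc.nonneg hc.sum_one f F hmem
  have h2 : 0 < (F.card : ℝ) := by exact_mod_cast Finset.card_pos.mpr ⟨_, hmem ω₀ hω₀⟩
  have h3 : (F.card : ℝ) ≤ Real.exp (h + e) := hf.1
  have h5 := Real.log_le_log h2 h3
  rw [Real.log_exp] at h5
  linarith

lemma rg_cond_law {p : Ω → ℝ} (hp : IsLaw p) {f : Ω → S} {b : ℝ}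
    (hf : ∀ s, law p f s ≤ Real.exp (-b)) (A : Ω → K) {k : K} {c : ℝ}
    (hk : Real.exp (-c) ≤ law p A k) (s : S) :
    law (cond p A k) f s ≤ Real.exp (-(b - c)) := by
  classical
  have hpos : 0 < law p A k := lt_of_lt_of_le (Real.exp_pos _) hk
  rw [law_cond, div_le_iff₀ hpos]
  have h1 : law p (fun ω => (f ω, A ω)) (s, k) ≤ law p f s := by
    unfold law
    refine Finset.sum_le_sum fun ω _ => ?_
    by_cases h2 : (f ω, A ω) = (s, k)
    · rw [if_pos h2, if_pos (Prod.mk.inj h2).1]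
    · rw [if_neg h2]
      split_ifs
      · exact hp.nonneg ω
      · exact le_rfl
  refine (h1.trans (hf s)).trans ?_
  have h3 : Real.exp (-b) = Real.exp (-(b - c)) * Real.exp (-c) := by
    rw [← Real.exp_add]
    congr 1
    ring
  rw [h3]
  exact mul_le_mul_of_nonneg_left hk (Real.exp_pos _).le

lemma rg_cond {p : Ω → ℝ} (hp : IsLaw p) {f : Ω → S} {h e : ℝ} (hf : Rg p f h e)
    (A : Ω → K) {k : K} {c : ℝ} (hc : 0 ≤ c) (hk : Real.exp (-c) ≤ law p A k) :
    Rg (cond p A k) f h (e + c) := by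
  classical
  refine ⟨?_, fun s => ?_⟩
  · have h1 := hf.1
    have h2 : ((Finset.univ.filter (fun ω => cond p A k ω ≠ 0)).image f).card ≤
        ((Finset.univ.filter (fun ω => p ω ≠ 0)).image f).card := by
      refine Finset.card_le_card (Finset.image_subset_image ?_)
      intro ω hω
      rw [Finset.mem_filter] at hω ⊢
      exact ⟨hω.1, cond_ne A hω.2⟩
    have h3 : (((Finset.univ.filter (fun ω => p ω ≠ 0)).image f).card : ℝ) ≤
        Real.exp (h + e) := h1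
    have h4 : (((Finset.univ.filter (fun ω => cond p A k ω ≠ 0)).image f).card : ℝ) ≤
        Real.exp (h + (e + c)) :=
      ((by exact_mod_cast h2 : (((Finset.univ.filter (fun ω => cond p A k ω ≠ 0)).image f).card : ℝ)
        ≤ _).trans h3).trans (Real.exp_le_exp.mpr (by linarith))
    exact h4
  · have h5 := rg_cond_law hp hf.2 A hk s
    have h6 : -(h - e - c) = -(h - (e + c)) := by ring
    rwa [h6] at h5

lemma rg_cond_ge {p : Ω → ℝ} (hp : IsLaw p) {f : Ω → S} {h e : ℝ} (hf : Rg p f h e)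
    (A : Ω → K) {k : K} {c : ℝ} (hk : Real.exp (-c) ≤ law p A k) :
    h - e - c ≤ H (cond p A k) f :=
  rg_ge (cond_isLaw hp A (lt_of_lt_of_le (Real.exp_pos _) hk)) (rg_cond_law hp hf.2 A hk)

/-- Entropies with constant side information. -/
lemma tr_CH {p : Ω → ℝ} (hp : IsLaw p) (X : Ω → S) (Z : Ω → U) (z : U)
    (hZ : ∀ ω, p ω ≠ 0 → Z ω = z) : CH p X Z = H p X := by
  unfold CH
  have h1 : H p (fun ω => (X ω, Z ω)) = H p X :=
    H_congr hp.nonneg (fun ω ω' h h' e => by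
      show (X ω, Z ω) = (X ω', Z ω')
      rw [e, hZ ω h.ne', hZ ω' h'.ne']) (fun ω ω' _ _ e => (Prod.mk.inj e).1)
  have h2 : H p Z = H p (fun _ => z) :=
    H_congr hp.nonneg (fun ω ω' h h' _ => by rw [hZ ω h.ne', hZ ω' h'.ne']) (fun _ _ _ _ _ => rfl)
  rw [h1, h2, H_const hp.sum_one, sub_zero]

lemma tr_CH2 {p : Ω → ℝ} (hp : IsLaw p) (X : Ω → S) (Y : Ω → T) (Z : Ω → U) (z : U)
    (hZ : ∀ ω, p ω ≠ 0 → Z ω = z) :
    CH p X (fun ω => (Y ω, Z ω)) = H p (fun ω => (X ω, Y ω)) - H p Y := by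
  unfold CH
  have h1 : H p (fun ω => (X ω, (Y ω, Z ω))) = H p (fun ω => (X ω, Y ω)) :=
    H_congr hp.nonneg (fun ω ω' h h' e => by
      show (X ω, (Y ω, Z ω)) = (X ω', (Y ω', Z ω'))
      have e1 := (Prod.mk.inj e).1
      have e2 := (Prod.mk.inj e).2
      rw [e1, e2, hZ ω h.ne', hZ ω' h'.ne'])
      (fun ω ω' _ _ e => by
        have e1 := (Prod.mk.inj e).1
        have e2 := (Prod.mk.inj (Prod.mk.inj e).2).1
        show (X ω, Y ω) = (X ω', Y ω')
        rw [e1, e2])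
  have h2 : H p (fun ω => (Y ω, Z ω)) = H p Y :=
    H_congr hp.nonneg (fun ω ω' h h' e => by
      show (Y ω, Z ω) = (Y ω', Z ω')
      rw [e, hZ ω h.ne', hZ ω' h'.ne']) (fun ω ω' _ _ e => (Prod.mk.inj e).1)
  rw [h1, h2]

end Aux

theorem rhe_thm : RHEStmt := by
  intro Ω S K _ p hp f h e hf
  have h1 := rg_le hp hf
  have h2 : h - e ≤ H p f := rg_ge hp hf.2
  refine ⟨abs_le.mpr ⟨by linarith, by linarith⟩, fun A k c hk => ?_⟩
  have hc : 0 ≤ c := by
    have h3 := hk.trans (law_le_one' hp A k)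
    rw [← Real.exp_zero] at h3
    have h4 := Real.exp_le_exp.mp h3
    linarith
  have hpos : 0 < law p A k := lt_of_lt_of_le (Real.exp_pos _) hk
  have h5 := rg_cond_le hp hf A hpos
  have h6 := rg_cond_ge hp hf A hk
  exact ⟨rg_cond hp hf A hc hk, abs_le.mpr ⟨by linarith, by linarith⟩⟩

theorem res_thm : RESStmt := by
  intro m J F a e c τ ha he hc hTr hRb hTm A hA
  have hp : IsLaw F.p := F.isLaw
  have hpos : 0 < law F.p A True := lt_of_lt_of_le (Real.exp_pos _) hA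
  have hcl : IsLaw (cond F.p A True) := cond_isLaw hp A hpos
  obtain ⟨z, hz⟩ := hTr
  have hz' : ∀ ω, cond F.p A True ω ≠ 0 → F.Z ω = z := fun ω hω => hz ω (cond_ne A hω)
  obtain ⟨⟨h1, r1⟩, ⟨h2, r2⟩, ⟨h3, r3⟩, ⟨h4, r4⟩, ⟨h5, r5⟩⟩ := hRb
  refine ⟨hcl, ⟨z, hz'⟩, ⟨⟨h1, rg_cond hp r1 A hc hA⟩, ⟨h2, rg_cond hp r2 A hc hA⟩,
    ⟨h3, rg_cond hp r3 A hc hA⟩, ⟨h4, rg_cond hp r4 A hc hA⟩, ⟨h5, rg_cond hp r5 A hc hA⟩⟩,
    ?_, ?_⟩
  · -- times
    unfold Fam.Tm at hTm ⊢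
    have e1 : CH F.p F.T (fun ω => (F.l ω, F.Z ω)) =
        H F.p (fun ω => (F.T ω, F.l ω)) - H F.p F.l := tr_CH2 hp F.T F.l F.Z z hz
    have e2 : CH (cond F.p A True) F.T (fun ω => (F.l ω, F.Z ω)) =
        H (cond F.p A True) (fun ω => (F.T ω, F.l ω)) - H (cond F.p A True) F.l :=
      tr_CH2 hcl F.T F.l F.Z z hz'
    have e3 : H F.p (fun ω => (F.T ω, F.l ω)) = H F.p (fun ω => (F.l ω, F.T ω)) :=
      H_congr hp.nonneg (fun _ _ _ _ h => by
        show (F.T _, F.l _) = (F.T _, F.l _)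
        rw [(Prod.mk.inj h).1, (Prod.mk.inj h).2])
        (fun _ _ _ _ h => by
        show (F.l _, F.T _) = (F.l _, F.T _)
        rw [(Prod.mk.inj h).1, (Prod.mk.inj h).2])
    have e4 : H (cond F.p A True) (fun ω => (F.T ω, F.l ω)) =
        H (cond F.p A True) (fun ω => (F.l ω, F.T ω)) :=
      H_congr hcl.nonneg (fun _ _ _ _ h => by
        show (F.T _, F.l _) = (F.T _, F.l _)
        rw [(Prod.mk.inj h).1, (Prod.mk.inj h).2])
        (fun _ _ _ _ h => by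
        show (F.l _, F.T _) = (F.l _, F.T _)
        rw [(Prod.mk.inj h).1, (Prod.mk.inj h).2])
    have g1 := rg_le hp r4
    have g2 := rg_cond_ge hp r4 A hA
    have g3 : h5 - e ≤ H F.p F.l := rg_ge hp r5.2
    have g4 := rg_cond_le hp r5 A hpos
    have goal : (J : ℝ) * Real.log 2 - (τ + 4 * e + c) ≤
        CH (cond F.p A True) F.T (fun ω => (F.l ω, F.Z ω)) := by
      rw [e2, e4]
      rw [e1, e3] at hTm
      linarith
    exact goal
  · -- the functional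
    have e1 : F.Ga a = H F.p (F.D J) - a * (H F.p (fun ω => (F.X J ω, F.T ω)) - H F.p F.T) := by
      unfold Fam.Ga
      rw [tr_CH hp (F.D J) F.Z z hz]
      congr 2
      exact tr_CH2 hp (F.X J) F.T F.Z z hz
    have e2 : (F.res A True hcl).Ga a = H (cond F.p A True) (F.D J) -
        a * (H (cond F.p A True) (fun ω => (F.X J ω, F.T ω)) - H (cond F.p A True) F.T) := by
      have e3 : (F.res A True hcl).Ga a = CH (cond F.p A True) (F.D J) F.Z -
          a * CH (cond F.p A True) (F.X J) (fun ω => (F.T ω, F.Z ω)) := rfl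
      rw [e3, tr_CH hcl (F.D J) F.Z z hz', tr_CH2 hcl (F.X J) F.T F.Z z hz']
    have g1 := rg_le hp r1
    have g2 := rg_cond_ge hp r1 A hA
    have g3 : h2 - e ≤ H F.p (fun ω => (F.X J ω, F.T ω)) := rg_ge hp r2.2
    have g4 := rg_cond_le hp r2 A hpos
    have g5 := rg_le hp r3
    have g6 := rg_cond_ge hp r3 A hA
    have g7 : H (cond F.p A True) (fun ω => (F.X J ω, F.T ω)) - H (cond F.p A True) F.T ≤
        H F.p (fun ω => (F.X J ω, F.T ω)) - H F.p F.T + (4 * e + c) := by linarith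
    have g8 := mul_le_mul_of_nonneg_left g7 ha
    rw [e1, e2]
    have g9 : 0 ≤ e := he
    nlinarith

end Pool.KA
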