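import Pool.Agent.H52.K2.AP6
import Pool.Agent.H52.K2.RG

/-!
# Fans are pointwise nonatomic, outside exponentially small events
-/

set_option autoImplicit false

namespace Pool.KA

open Finset Real
open Pool.Agent.H49.Ent Pool.Agent.H32.Dense Pool.STK

theorem rpt_thm (h2 : AP2Stmt) (hT : TUBStmt) : RPTStmt := by
  classical
  intro m a R ha hR hU x ε hx hε
  have ha0 : 0 < a := lt_of_lt_of_le one_pos ha
  rcases le_or_gt (R / a) ε with hcase | hcase
  · -- trivial case
    refine ⟨1, one_pos, 0, fun J _ F _ _ _ q _ _ => ?_⟩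
    refine le_trans (le_of_eq ?_) (Real.exp_pos _).le
    refine Finset.sum_eq_zero fun ω _ => if_neg ?_
    rw [not_lt]
    refine (cpr_le_one F.isLaw.nonneg _ _ ω).trans ?_
    rw [← Real.exp_zero]
    apply Real.exp_le_exp.mpr
    have : (R / a - ε) * q ≤ 0 := mul_nonpos_of_nonpos_of_nonneg (by linarith) (Nat.cast_nonneg q)
    linarith
  set ρ : ℝ := R / a with hρ
  have hρ0 : 0 < ρ := div_pos hR ha0
  obtain ⟨C, hC, h2⟩ := h2 m
  set κ : ℝ := min (1 / 4) (ε / (8 * ρ)) with hκ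
  have hκ0 : 0 < κ := lt_min (by norm_num) (by positivity)
  have hκ1 : κ ≤ 1 / 4 := min_le_left _ _
  have hκ2 : 2 * κ * ρ ≤ ε / 4 := by
    have h3 : κ ≤ ε / (8 * ρ) := min_le_right _ _
    rw [le_div_iff₀ (by positivity)] at h3
    linarith
  set x' : ℝ := min x (1 / 2) with hx'
  have hx0 : 0 < x' := lt_min hx (by norm_num)
  set η : ℝ := a * ε * x' / 16 with hη
  have hη0 : 0 < η := by positivity
  obtain ⟨θ₀, hθ₀, J₀, h3⟩ := tub_Ga_le hT hU hη0 hκ0
  set θ : ℝ := min θ₀ (ε * x' / 16) with hθ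
  have hθ0 : 0 < θ := lt_min hθ₀ (by positivity)
  set c : ℝ := min (θ / 6) (η / (6 * (1 + a))) with hc
  have hc0 : 0 < c := lt_min (by positivity) (by positivity)
  have hc1 : 6 * c ≤ θ := by
    have : c ≤ θ / 6 := min_le_left _ _
    linarith
  have hc2 : c * (6 * (1 + a)) ≤ η := by
    have : c ≤ η / (6 * (1 + a)) := min_le_right _ _
    rwa [le_div_iff₀ (by positivity)] at this
  refine ⟨c, hc0, max J₀ (max ⌈1 / κ⌉₊ ⌈16 * (C + 1) / (ε * x')⌉₊), ?_⟩
  intro J hJ F hF hTr hRb q hq hxq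
  have hJ0 : J₀ ≤ J := (le_max_left _ _).trans hJ
  have hJ2 : 1 / κ ≤ J := (Nat.le_ceil _).trans
    (by exact_mod_cast (le_max_left _ _).trans ((le_max_right _ _).trans hJ))
  have hJ3 : 16 * (C + 1) / (ε * x') ≤ J := (Nat.le_ceil _).trans
    (by exact_mod_cast (le_max_right _ _).trans ((le_max_right _ _).trans hJ))
  rw [div_le_iff₀ hκ0] at hJ2
  rw [div_le_iff₀ (by positivity)] at hJ3
  have hJpos : (0 : ℝ) ≤ J := Nat.cast_nonneg J
  -- the scale
  set n : ℕ := ⌈κ * J⌉₊ with hn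
  have hn1 : κ * J ≤ n := Nat.le_ceil _
  have hn2 : (n : ℝ) ≤ κ * J + 1 := (Nat.ceil_lt_add_one (by positivity)).le
  have hnJ : n ≤ J := by
    have : (n : ℝ) ≤ J := by nlinarith
    exact_mod_cast this
  have hnc : ((J - n : ℕ) : ℝ) = (J : ℝ) - n := Nat.cast_sub hnJ
  set q' : ℕ := min q (J - n) with hq'
  have hq'q : q' ≤ q := min_le_left _ _
  have hq'J : q' ≤ J := hq'q.trans hq
  have hq'n : (q' : ℝ) ≤ (J : ℝ) - n := by
    rw [← hnc]
    exact_mod_cast min_le_right q (J - n)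
  have hqJ : (q : ℝ) ≤ J := by exact_mod_cast hq
  have hq1 : x' * J ≤ q' := by
    rcases min_choice q (J - n) with h7 | h7
    · rw [hq', h7]
      exact (mul_le_mul_of_nonneg_right (min_le_left _ _) hJpos).trans hxq
    · rw [hq', h7, hnc]
      have h8 : x' * J ≤ 1 / 2 * J := mul_le_mul_of_nonneg_right (min_le_right _ _) hJpos
      nlinarith
  have hq2 : (ρ - ε) * q ≤ (ρ - ε / 2) * q' := by
    rcases min_choice q (J - n) with h7 | h7
    · rw [hq', h7]
      exact mul_le_mul_of_nonneg_right (by linarith) (Nat.cast_nonneg q)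
    · rw [hq', h7, hnc]
      have h8 : (ρ - ε) * q ≤ (ρ - ε) * J := mul_le_mul_of_nonneg_left hqJ (by linarith)
      have h9 : (ρ - ε / 2) * ((1 - 2 * κ) * J) ≤ (ρ - ε / 2) * ((J : ℝ) - n) := by
        refine mul_le_mul_of_nonneg_left ?_ (by linarith)
        nlinarith
      have h10 : (ρ - ε) * J ≤ (ρ - ε / 2) * ((1 - 2 * κ) * J) := by
        have h11 : ρ - ε ≤ (ρ - ε / 2) * (1 - 2 * κ) := by nlinarith
        calc (ρ - ε) * J ≤ ((ρ - ε / 2) * (1 - 2 * κ)) * J :=
              mul_le_mul_of_nonneg_right h11 hJpos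
          _ = _ := by ring
      linarith
  -- the event
  set A : F.Ω → Prop := fun ω =>
    Real.exp (-((ρ - ε) * q)) < cpr F.p (F.D q) (fun ω => (F.X J ω, F.W ω)) ω with hA
  by_contra hcon
  rw [not_le] at hcon
  have hlaw : law F.p A True = ∑ ω, if A ω then F.p ω else 0 := by
    unfold law
    refine Finset.sum_congr rfl fun ω _ => ?_
    by_cases hω : A ω
    · rw [if_pos hω, if_pos (eq_true hω)]
    · rw [if_neg hω, if_neg (by rw [eq_false hω]; exact false_ne_true)]
  have hπ : Real.exp (-(c * J)) ≤ law F.p A True := by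
    rw [hlaw]
    refine le_of_lt (lt_of_lt_of_eq hcon ?_)
    refine Finset.sum_congr rfl fun ω _ => ?_
    by_cases hω : A ω
    · rw [if_pos hω]
    · rw [if_neg hω]
  obtain ⟨hl, -, -, hTm', hGa'⟩ := res_thm m J F a (c * J) (c * J) (c * J) ha0.le
    (by positivity) (by positivity) hTr hRb hF.1 A hπ
  have hTm : (F.res A True hl).Tm (θ * J) := by
    unfold Fam.Tm at hTm' ⊢
    have h7 : 6 * c * J ≤ θ * J := mul_le_mul_of_nonneg_right hc1 hJpos
    linarith
  have hGa : (R - η) * J ≤ (F.res A True hl).Ga a := by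
    have h7 := hF.2
    have h8 : c * (6 * (1 + a)) * J ≤ η * J := mul_le_mul_of_nonneg_right hc2 hJpos
    have h9 : 0 ≤ c * J := by positivity
    nlinarith
  have hTm0 : (F.res A True hl).Tm (θ₀ * J) := by
    unfold Fam.Tm at hTm ⊢
    have h7 : θ * J ≤ θ₀ * J := mul_le_mul_of_nonneg_right (min_le_left _ _) hJpos
    linarith
  have h8 := h3 J hJ0 (F.res A True hl) hTm0 q' hq'J (by linarith)
  have h9 := h2 J q' hq'J (F.res A True hl) a R η (θ * J) ha hη0.le hTm hGa h8
  have hp' : ∀ ω, 0 ≤ (F.res A True hl).p ω := hl.nonneg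
  have h10 : 0 ≤ CH (F.res A True hl).p ((F.res A True hl).L q') (F.res A True hl).Z :=
    CH_nonneg hp' _ _
  have h11 : 0 ≤ CH (F.res A True hl).p ((F.res A True hl).L q')
      (fun ω => ((F.res A True hl).D J ω, (F.res A True hl).Z ω)) := CH_nonneg hp' _ _
  have h12 : CH (F.res A True hl).p ((F.res A True hl).D q')
      (fun ω => ((F.res A True hl).X J ω, (F.res A True hl).W ω)) ≤ (ρ - ε / 2) * q' := by
    refine CH_res_le F.isLaw.nonneg (F.D q') (fun ω => (F.X J ω, F.W ω)) A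
      (lt_of_lt_of_le (Real.exp_pos _) hπ).ne' _ ?_
    intro ω hω _
    have h13 : cpr F.p (F.D q) (fun ω => (F.X J ω, F.W ω)) ω ≤
        cpr F.p (F.D q') (fun ω => (F.X J ω, F.W ω)) ω :=
      cpr_mono F.isLaw.nonneg _ _ _ ω fun ω' h14 => fl_coarse hq'q h14
    have h15 : Real.exp (-((ρ - ε / 2) * q')) ≤ Real.exp (-((ρ - ε) * q)) :=
      Real.exp_le_exp.mpr (by linarith)
    exact h15.trans (hω.le.trans h13)
  have h16 : a * ρ = R := by rw [hρ]; field_simp
  have h17 : a * ((ρ - ε / 2) * q') = R * q' - a * ε / 2 * q' := by rw [← h16]; ring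
  have h18 : a * CH (F.res A True hl).p ((F.res A True hl).D q')
      (fun ω => ((F.res A True hl).X J ω, (F.res A True hl).W ω)) ≤
      a * ((ρ - ε / 2) * q') := mul_le_mul_of_nonneg_left h12 ha0.le
  have h19 : 0 ≤ (a - 1) * CH (F.res A True hl).p ((F.res A True hl).L q')
      (F.res A True hl).Z := mul_nonneg (by linarith) h10
  have h20 : a * ε / 2 * q' ≤ 2 * η * J + 2 * a * (θ * J + C) := by linarith
  have h21 : θ * J ≤ ε * x' / 16 * J := mul_le_mul_of_nonneg_right (min_le_right _ _) hJpos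
  have h22 : a * ε / 2 * (x' * J) ≤ a * ε / 2 * q' := mul_le_mul_of_nonneg_left hq1 (by positivity)
  have h23 : 2 * a * (θ * J + C) ≤ 2 * a * (ε * x' / 16 * J + C) :=
    mul_le_mul_of_nonneg_left (by linarith) (by positivity)
  have h24 : 2 * a * C ≤ 2 * a * (J * (ε * x') / 16) :=
    mul_le_mul_of_nonneg_left (by linarith) (by positivity)
  have h25 : 0 < a * (ε * x') * J := by
    have h26 : 0 < (J : ℝ) := by nlinarith
    positivity
  rw [hη] at h20
  nlinarith

end Pool.KA
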